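import Mathlib

open Set Filter Topology MeasureTheory
open scoped ENNReal NNReal

namespace Pool.Agent.Y523.Sponge

/-- measure of the part of `V` left of `r` -/
noncomputable def leftMass (V : Set ℝ) (r : ℝ) : ℝ := (volume (V ∩ Iio r)).toReal

section line
variable {V : Set ℝ} (hV : IsOpen V) (hvol : volume V ≤ 1)
include hV hvol

lemma fin_inter (S : Set ℝ) : volume (V ∩ S) ≠ ⊤ :=
  ne_top_of_le_ne_top ENNReal.one_ne_top (le_trans (measure_mono inter_subset_left) hvol)

lemma leftMass_diff {r r' : ℝ} (h : r ≤ r') :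
    leftMass V r' - leftMass V r = (volume (V ∩ Ico r r')).toReal := by
  have hun : V ∩ Iio r' = (V ∩ Iio r) ∪ (V ∩ Ico r r') := by
    rw [← inter_union_distrib_left, Iio_union_Ico_eq_Iio h]
  have hdisj : Disjoint (V ∩ Iio r) (V ∩ Ico r r') := by
    apply Disjoint.mono inter_subset_right inter_subset_right
    rw [Set.disjoint_left]
    intro x hx hx'
    exact absurd hx'.1 (not_le.2 hx)
  unfold leftMass
  rw [hun, measure_union hdisj (hV.measurableSet.inter measurableSet_Ico),
    ENNReal.toReal_add (fin_inter hV hvol _) (fin_inter hV hvol _)]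
  ring

lemma leftMass_diff_of_subset {r r' : ℝ} (h : r ≤ r') (hsub : Icc r r' ⊆ V) :
    leftMass V r' - leftMass V r = r' - r := by
  rw [leftMass_diff hV hvol h, inter_eq_right.2 (Ico_subset_Icc_self.trans hsub), Real.volume_Ico,
    ENNReal.toReal_ofReal (by linarith)]

lemma leftMass_diff_uIcc {r r' : ℝ} (hsub : uIcc r r' ⊆ V) :
    leftMass V r' - leftMass V r = r' - r := by
  rcases le_total r r' with h | h
  · rw [uIcc_of_le h] at hsub
    exact leftMass_diff_of_subset hV hvol h hsub
  · rw [uIcc_of_ge h] at hsub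
    have := leftMass_diff_of_subset hV hvol h hsub
    linarith

lemma leftMass_mono : Monotone (leftMass V) := by
  intro r r' h
  have := leftMass_diff hV hvol h
  have h2 : 0 ≤ (volume (V ∩ Ico r r')).toReal := ENNReal.toReal_nonneg
  linarith

lemma leftMass_lt {r r' : ℝ} (h : r < r') (hr : r ∈ V) : leftMass V r < leftMass V r' := by
  obtain ⟨δ, hδ, hball⟩ := Metric.isOpen_iff.1 hV r hr
  set q := min r' (r + δ / 2) with hq
  have hq1 : r < q := lt_min h (by linarith)
  have hq2 : q ≤ r' := min_le_left _ _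
  have hq3 : q ≤ r + δ / 2 := min_le_right _ _
  have hsub : Icc r q ⊆ V := by
    intro x hx
    apply hball
    rw [Metric.mem_ball, Real.dist_eq, abs_of_nonneg (by linarith [hx.1])]
    linarith [hx.2]
  have h1 := leftMass_diff_of_subset hV hvol hq1.le hsub
  have h2 := leftMass_mono hV hvol hq2
  linarith

end line

/-- the line as a Euclidean space of dimension one -/
def vec (r : ℝ) : EuclideanSpace ℝ (Fin 1) := WithLp.toLp 2 (fun _ => r)

lemma vec_apply (r : ℝ) : (vec r).ofLp 0 = r := rfl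

lemma vec_ofLp (x : EuclideanSpace ℝ (Fin 1)) : vec (x.ofLp 0) = x := by
  ext i
  rw [Subsingleton.elim i 0]
  rfl

lemma dist_vec (r r' : ℝ) : dist (vec r) (vec r') = dist r r' := by
  rw [EuclideanSpace.dist_eq]
  simp only [Fin.sum_univ_one, vec]
  rw [Real.sqrt_sq dist_nonneg]

lemma norm_vec (r : ℝ) : ‖vec r‖ = |r| := by
  rw [EuclideanSpace.norm_eq]
  simp only [Fin.sum_univ_one, vec, Real.norm_eq_abs, sq_abs]
  exact Real.sqrt_sq_eq_abs r

lemma vec_cont : Continuous vec :=
  (PiLp.continuous_toLp 2 (fun _ : Fin 1 => ℝ)).comp (continuous_pi fun _ => continuous_id)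

lemma dist_coord (x y : EuclideanSpace ℝ (Fin 1)) : dist (x.ofLp 0) (y.ofLp 0) = dist x y := by
  rw [← dist_vec, vec_ofLp, vec_ofLp]

lemma coord_cont : Continuous (fun x : EuclideanSpace ℝ (Fin 1) => x.ofLp 0) :=
  (continuous_apply 0).comp (PiLp.continuous_ofLp 2 (fun _ : Fin 1 => ℝ))

lemma vol_vec (U : Set (EuclideanSpace ℝ (Fin 1))) : volume (vec ⁻¹' U) = volume U := by
  have h1 := PiLp.volume_preserving_toLp (Fin 1)
  have h2 := (volume_preserving_funUnique (Fin 1) ℝ).symm
  have h3 : MeasurePreserving vec volume volume := by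
    exact h1.comp h2
  have h4 : MeasurableEmbedding vec := by
    have e1 := (MeasurableEquiv.toLp 2 (Fin 1 → ℝ)).measurableEmbedding
    have e2 := (MeasurableEquiv.funUnique (Fin 1) ℝ).symm.measurableEmbedding
    exact e1.comp e2
  exact h3.measure_preimage_emb h4 U

/-- the line case: push everything to the left -/
noncomputable def push (U : Set (EuclideanSpace ℝ (Fin 1))) (x : EuclideanSpace ℝ (Fin 1)) :
    EuclideanSpace ℝ (Fin 1) := vec (leftMass (vec ⁻¹' U) (x.ofLp 0))

section one
variable {U : Set (EuclideanSpace ℝ (Fin 1))} (hU : IsOpen U) (hvol : volume U ≤ 1)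
include hU hvol

lemma push_norm (x : EuclideanSpace ℝ (Fin 1)) : ‖push U x‖ ≤ 1 := by
  unfold push
  rw [norm_vec, leftMass, abs_of_nonneg ENNReal.toReal_nonneg]
  have h : volume (vec ⁻¹' U ∩ Iio (x.ofLp 0)) ≤ 1 := by
    refine le_trans (measure_mono inter_subset_left) ?_
    rw [vol_vec]
    exact hvol
  have := ENNReal.toReal_mono ENNReal.one_ne_top h
  simpa using this

lemma push_translate {x y : EuclideanSpace ℝ (Fin 1)}
    (hsub : uIcc (x.ofLp 0) (y.ofLp 0) ⊆ vec ⁻¹' U) :
    push U y = push U x + (y - x) := by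
  have h := leftMass_diff_uIcc (hU.preimage vec_cont) (by rw [vol_vec]; exact hvol) hsub
  ext i
  rw [Subsingleton.elim i 0]
  simp only [push, PiLp.add_apply, PiLp.sub_apply, vec_apply]
  linarith

lemma seg_of_ball {x y : EuclideanSpace ℝ (Fin 1)} {δ : ℝ} (hball : Metric.ball x δ ⊆ U)
    (hy : y ∈ Metric.ball x δ) : uIcc (x.ofLp 0) (y.ofLp 0) ⊆ vec ⁻¹' U := by
  intro r hr
  apply hball
  rw [Metric.mem_ball, ← dist_coord, vec_apply, Real.dist_eq]
  rw [Metric.mem_ball, ← dist_coord, Real.dist_eq] at hy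
  exact lt_of_le_of_lt (abs_sub_left_of_mem_uIcc hr) hy

lemma push_embedding : IsEmbedding (U.domRestrict (push U)) := by
  have hV : IsOpen (vec ⁻¹' U) := hU.preimage vec_cont
  have hvolV : volume (vec ⁻¹' U) ≤ 1 := by rw [vol_vec]; exact hvol
  have hcont : Continuous (U.domRestrict (push U)) := by
    rw [← continuousOn_iff_continuous_domRestrict]
    intro x hx
    obtain ⟨δ, hδ, hball⟩ := Metric.isOpen_iff.1 hU x hx
    have hev : push U =ᶠ[𝓝 x] fun y => push U x + (y - x) := by
      filter_upwards [Metric.ball_mem_nhds x hδ] with y hy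
      exact push_translate hU hvol (seg_of_ball hU hvol hball hy)
    apply ContinuousAt.continuousWithinAt
    apply ContinuousAt.congr _ hev.symm
    fun_prop
  have hinj : Function.Injective (U.domRestrict (push U)) := by
    rintro ⟨x, hx⟩ ⟨y, hy⟩ hxy
    simp only [Set.domRestrict_apply, push] at hxy
    have h0 := congrArg (fun v : EuclideanSpace ℝ (Fin 1) => v.ofLp 0) hxy
    simp only [vec_apply] at h0
    have hx' : x.ofLp 0 ∈ vec ⁻¹' U := by rw [mem_preimage, vec_ofLp]; exact hx
    have hy' : y.ofLp 0 ∈ vec ⁻¹' U := by rw [mem_preimage, vec_ofLp]; exact hy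
    apply Subtype.ext
    simp only
    rw [← vec_ofLp x, ← vec_ofLp y]
    congr 1
    rcases lt_trichotomy (x.ofLp 0) (y.ofLp 0) with h | h | h
    · exact absurd h0 (leftMass_lt hV hvolV h hx').ne
    · exact h
    · exact absurd h0 (leftMass_lt hV hvolV h hy').ne'
  have hopen : IsOpenMap (U.domRestrict (push U)) := by
    rw [isOpenMap_iff_nhds_le]
    rintro ⟨x, hx⟩ S hS
    rw [mem_map, Metric.mem_nhds_iff] at hS
    obtain ⟨δ₁, hδ₁, hS⟩ := hS
    obtain ⟨δ, hδ, hball⟩ := Metric.isOpen_iff.1 hU x hx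
    rw [Metric.mem_nhds_iff]
    refine ⟨min δ δ₁, lt_min hδ hδ₁, ?_⟩
    intro r hr
    simp only [Set.domRestrict_apply] at hr
    set y := x + (r - push U x) with hy
    have hyx : dist y x < min δ δ₁ := by
      rw [hy, dist_eq_norm, add_sub_cancel_left, ← dist_eq_norm]
      exact hr
    have hyball : y ∈ Metric.ball x δ := lt_of_lt_of_le hyx (min_le_left _ _)
    have hyU : y ∈ U := hball hyball
    have h1 := push_translate hU hvol (seg_of_ball hU hvol hball hyball)
    have h2 : push U y = r := by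
      rw [h1, hy]; abel
    have h3 : (⟨y, hyU⟩ : U) ∈ Metric.ball (⟨x, hx⟩ : U) δ₁ := by
      rw [Metric.mem_ball, Subtype.dist_eq]
      exact lt_of_lt_of_le hyx (min_le_right _ _)
    have h4 := hS h3
    rw [mem_preimage, Set.domRestrict_apply, h2] at h4
    exact h4
  exact (IsOpenEmbedding.of_continuous_injective_isOpenMap hcont hinj hopen).isEmbedding

lemma push_length {γ : ℝ → EuclideanSpace ℝ (Fin 1)} {a b : ℝ}
    (hγ : ContinuousOn γ (Icc a b)) (hmaps : MapsTo γ (Icc a b) U) :
    eVariationOn γ (Icc a b) ≤ eVariationOn (push U ∘ γ) (Icc a b) := by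
  have hd : ∀ s ∈ Icc a b, ∀ t ∈ Icc a b,
      edist (push U (γ t)) (push U (γ s)) = edist (γ t) (γ s) := by
    intro s hs t ht
    have hsub : uIcc ((γ s).ofLp 0) ((γ t).ofLp 0) ⊆ vec ⁻¹' U := by
      intro r hr
      have hc : ContinuousOn (fun τ => (γ τ).ofLp 0) (uIcc s t) := by
        apply coord_cont.comp_continuousOn
        exact hγ.mono (uIcc_subset_Icc hs ht)
      obtain ⟨τ, hτ, hτr⟩ := intermediate_value_uIcc hc hr
      have hτ' : τ ∈ Icc a b := uIcc_subset_Icc hs ht hτ
      rw [mem_preimage, ← hτr]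
      simp only
      rw [vec_ofLp]
      exact hmaps hτ'
    rw [push_translate hU hvol hsub, edist_dist, edist_dist, dist_eq_norm, add_sub_cancel_left,
      ← dist_eq_norm]
  refine iSup_le ?_
  rintro ⟨n, u, hu, us⟩
  calc ∑ i ∈ Finset.range n, edist (γ (u (i + 1))) (γ (u i))
      = ∑ i ∈ Finset.range n, edist ((push U ∘ γ) (u (i + 1))) ((push U ∘ γ) (u i)) := by
        apply Finset.sum_congr rfl
        intro i _
        exact (hd _ (us i) _ (us (i + 1))).symm
    _ ≤ _ := eVariationOn.sum_le hu us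

end one

end Pool.Agent.Y523.Sponge
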