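import Mathlib

open Set Filter Topology MeasureTheory
open scoped ENNReal NNReal

namespace Pool.Agent.Y523.Sponge

/-- the even integers as a subset of the line -/
def evens : Set ℝ := Set.range (fun k : ℤ => (2 * (k : ℝ)))

/-- the triangle wave: distance to the nearest even integer -/
noncomputable def tri (x : ℝ) : ℝ := Metric.infDist x evens

lemma evens_nonempty : evens.Nonempty := ⟨_, 0, rfl⟩

lemma tri_nonneg (x : ℝ) : 0 ≤ tri x := Metric.infDist_nonneg

lemma tri_le_one (x : ℝ) : tri x ≤ 1 := by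
  have h1 : tri x ≤ dist x (2 * ((round (x / 2) : ℤ) : ℝ)) :=
    Metric.infDist_le_dist_of_mem ⟨round (x / 2), rfl⟩
  have h2 := abs_sub_round (x / 2)
  rw [Real.dist_eq] at h1
  have h3 : |x - 2 * ((round (x / 2) : ℤ) : ℝ)| = 2 * |x / 2 - round (x / 2)| := by
    rw [← abs_two, ← abs_mul, abs_two]
    congr 1
    ring
  rw [h3] at h1
  linarith

lemma tri_even (k : ℤ) : tri (2 * (k : ℝ)) = 0 :=
  Metric.infDist_zero_of_mem ⟨k, rfl⟩

lemma tri_odd (k : ℤ) : tri (2 * (k : ℝ) + 1) = 1 := by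
  apply le_antisymm (tri_le_one _)
  rw [tri, Metric.le_infDist evens_nonempty]
  rintro _ ⟨l, rfl⟩
  rw [Real.dist_eq]
  have : (2 * (k : ℝ) + 1 - 2 * (l : ℝ)) = ((2 * k + 1 - 2 * l : ℤ) : ℝ) := by push_cast; ring
  simp only
  rw [this, ← Int.cast_abs]
  have h : (1 : ℤ) ≤ |2 * k + 1 - 2 * l| := by
    apply Int.one_le_abs
    omega
  exact_mod_cast h

lemma tri_lip (x y : ℝ) : |tri x - tri y| ≤ |x - y| := by
  rw [← Real.dist_eq x y, abs_sub_le_iff]
  constructor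
  · have := Metric.infDist_le_infDist_add_dist (s := evens) (x := x) (y := y)
    simp only [tri]
    linarith
  · have := Metric.infDist_le_infDist_add_dist (s := evens) (x := y) (y := x)
    rw [dist_comm y x] at this
    simp only [tri]
    linarith

lemma tri_cont : Continuous tri := Metric.continuous_infDist_pt _

lemma tri_succ (j : ℤ) : |tri ((j : ℝ) + 1) - tri j| = 1 := by
  rcases Int.even_or_odd' j with ⟨k, rfl | rfl⟩
  · push_cast
    rw [tri_odd, tri_even]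
    norm_num
  · push_cast
    have : (2 * (k : ℝ) + 1 + 1) = 2 * ((k + 1 : ℤ) : ℝ) := by push_cast; ring
    rw [this, tri_odd, tri_even]
    norm_num

/-- a bounded continuous function of infinite variation on every interval -/
noncomputable def W (x : ℝ) : ℝ := ∑' k : ℕ, (1 / 2 : ℝ) ^ k * tri (8 ^ k * x)

lemma W_term_nonneg (x : ℝ) (k : ℕ) : 0 ≤ (1 / 2 : ℝ) ^ k * tri (8 ^ k * x) :=
  mul_nonneg (by positivity) (tri_nonneg _)

lemma W_term_le (x : ℝ) (k : ℕ) : (1 / 2 : ℝ) ^ k * tri (8 ^ k * x) ≤ (1 / 2 : ℝ) ^ k :=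
  mul_le_of_le_one_right (by positivity) (tri_le_one _)

lemma W_summable (x : ℝ) : Summable fun k : ℕ => (1 / 2 : ℝ) ^ k * tri (8 ^ k * x) :=
  Summable.of_nonneg_of_le (W_term_nonneg x) (W_term_le x) summable_geometric_two

lemma W_nonneg (x : ℝ) : 0 ≤ W x := tsum_nonneg (W_term_nonneg x)

lemma W_le (x : ℝ) : W x ≤ 2 := by
  have := (W_summable x).tsum_le_tsum (W_term_le x) summable_geometric_two
  rwa [tsum_geometric_two] at this

lemma W_cont : Continuous W := by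
  apply continuous_tsum (u := fun k : ℕ => (1 / 2 : ℝ) ^ k)
  · intro k
    exact continuous_const.mul (tri_cont.comp (continuous_const.mul continuous_id))
  · exact summable_geometric_two
  · intro k x
    rw [Real.norm_of_nonneg (W_term_nonneg x k)]
    exact W_term_le x k

lemma W_grid (m : ℕ) (j : ℤ) :
    W ((j : ℝ) / 8 ^ m) =
      ∑ k ∈ Finset.range (m + 1), (1 / 2 : ℝ) ^ k * tri (8 ^ k * ((j : ℝ) / 8 ^ m)) := by
  apply tsum_eq_sum
  intro k hk
  rw [Finset.mem_range, not_lt] at hk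
  obtain ⟨l, rfl⟩ := Nat.exists_eq_add_of_le hk
  have : (8 : ℝ) ^ (m + 1 + l) * ((j : ℝ) / 8 ^ m) = 2 * ((4 * 8 ^ l * j : ℤ) : ℝ) := by
    push_cast
    rw [pow_add, pow_add]
    field_simp
    ring
  rw [this, tri_even, mul_zero]

lemma W_step (m : ℕ) (j : ℤ) :
    (2 / 3 : ℝ) * (1 / 2) ^ m ≤ |W (((j + 1 : ℤ) : ℝ) / 8 ^ m) - W ((j : ℝ) / 8 ^ m)| := by
  rw [W_grid, W_grid, ← Finset.sum_sub_distrib, Finset.sum_range_succ]
  have h8 : (8 : ℝ) ^ m ≠ 0 := by positivity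
  have hlast : |(1 / 2 : ℝ) ^ m * tri (8 ^ m * (((j + 1 : ℤ) : ℝ) / 8 ^ m)) -
      (1 / 2 : ℝ) ^ m * tri (8 ^ m * ((j : ℝ) / 8 ^ m))| = (1 / 2) ^ m := by
    rw [mul_div_cancel₀ _ h8, mul_div_cancel₀ _ h8, ← mul_sub, abs_mul]
    push_cast
    rw [tri_succ, mul_one, abs_of_pos (by positivity)]
  have hsum : |∑ k ∈ Finset.range m, ((1 / 2 : ℝ) ^ k * tri (8 ^ k * (((j + 1 : ℤ) : ℝ) / 8 ^ m)) -
      (1 / 2 : ℝ) ^ k * tri (8 ^ k * ((j : ℝ) / 8 ^ m)))| ≤ (1 / 3) * (1 / 2) ^ m := by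
    calc _ ≤ ∑ k ∈ Finset.range m, |((1 / 2 : ℝ) ^ k * tri (8 ^ k * (((j + 1 : ℤ) : ℝ) / 8 ^ m)) -
      (1 / 2 : ℝ) ^ k * tri (8 ^ k * ((j : ℝ) / 8 ^ m)))| := Finset.abs_sum_le_sum_abs _ _
      _ ≤ ∑ k ∈ Finset.range m, (4 : ℝ) ^ k * (1 / 8) ^ m := by
        apply Finset.sum_le_sum
        intro k _
        rw [← mul_sub, abs_mul, abs_of_pos (by positivity : (0 : ℝ) < (1 / 2) ^ k)]
        have h1 := tri_lip (8 ^ k * (((j + 1 : ℤ) : ℝ) / 8 ^ m)) (8 ^ k * ((j : ℝ) / 8 ^ m))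
        have h2 : |(8 : ℝ) ^ k * (((j + 1 : ℤ) : ℝ) / 8 ^ m) - 8 ^ k * ((j : ℝ) / 8 ^ m)|
            = 8 ^ k * (1 / 8) ^ m := by
          have : (8 : ℝ) ^ k * (((j + 1 : ℤ) : ℝ) / 8 ^ m) - 8 ^ k * ((j : ℝ) / 8 ^ m)
              = 8 ^ k * (1 / 8) ^ m := by
            push_cast
            rw [one_div, inv_pow]
            field_simp
            ring
          rw [this, abs_of_pos (by positivity)]
        rw [h2] at h1
        calc (1 / 2 : ℝ) ^ k * |tri (8 ^ k * (((j + 1 : ℤ) : ℝ) / 8 ^ m)) -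
            tri (8 ^ k * ((j : ℝ) / 8 ^ m))| ≤ (1 / 2 : ℝ) ^ k * (8 ^ k * (1 / 8) ^ m) := by
              gcongr
          _ = (4 : ℝ) ^ k * (1 / 8) ^ m := by
              rw [← mul_assoc, ← mul_pow]
              norm_num
      _ = (∑ k ∈ Finset.range m, (4 : ℝ) ^ k) * (1 / 8) ^ m := by rw [Finset.sum_mul]
      _ ≤ ((4 : ℝ) ^ m / 3) * (1 / 8) ^ m := by
        gcongr
        rw [geom_sum_eq (by norm_num)]
        have : (0 : ℝ) < 4 ^ m := by positivity
        linarith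
      _ = (1 / 3) * (1 / 2) ^ m := by
        rw [div_mul_eq_mul_div, ← mul_pow]
        norm_num
        ring
  set a := ∑ k ∈ Finset.range m, ((1 / 2 : ℝ) ^ k * tri (8 ^ k * (((j + 1 : ℤ) : ℝ) / 8 ^ m)) -
      (1 / 2 : ℝ) ^ k * tri (8 ^ k * ((j : ℝ) / 8 ^ m))) with ha
  set b := (1 / 2 : ℝ) ^ m * tri (8 ^ m * (((j + 1 : ℤ) : ℝ) / 8 ^ m)) -
      (1 / 2 : ℝ) ^ m * tri (8 ^ m * ((j : ℝ) / 8 ^ m)) with hb
  have h := abs_sub_abs_le_abs_sub b (-a)
  rw [abs_neg, sub_neg_eq_add, add_comm b a] at h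
  linarith

lemma W_var {p q : ℝ} (hpq : p < q) : eVariationOn W (Icc p q) = ⊤ := by
  by_contra hne
  set V := (eVariationOn W (Icc p q)).toReal with hV
  have hV0 : 0 ≤ V := ENNReal.toReal_nonneg
  -- lower bound at level `m`
  have key : ∀ m : ℕ, (8 ^ m * (q - p) - 2) * ((2 / 3 : ℝ) * (1 / 2) ^ m) ≤ V := by
    intro m
    have h8 : (0 : ℝ) < 8 ^ m := by positivity
    by_cases hsmall : (8 : ℝ) ^ m * (q - p) - 2 ≤ 0
    · exact le_trans (mul_nonpos_of_nonpos_of_nonneg hsmall (by positivity)) hV0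
    push Not at hsmall
    set j0 : ℤ := ⌈p * 8 ^ m⌉ with hj0
    set j1 : ℤ := ⌊q * 8 ^ m⌋ with hj1
    have hc1 : (j0 : ℝ) < p * 8 ^ m + 1 := Int.ceil_lt_add_one _
    have hc2 : p * 8 ^ m ≤ (j0 : ℝ) := Int.le_ceil _
    have hc3 : q * 8 ^ m < (j1 : ℝ) + 1 := Int.lt_floor_add_one _
    have hc4 : (j1 : ℝ) ≤ q * 8 ^ m := Int.floor_le _
    have hpos : 0 < j1 - j0 := by
      have : (0 : ℝ) < ((j1 - j0 : ℤ) : ℝ) := by push_cast; linarith
      exact_mod_cast this
    set N : ℕ := (j1 - j0).toNat with hN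
    have hNZ : (N : ℤ) = j1 - j0 := by rw [hN, Int.toNat_of_nonneg hpos.le]
    have hNge : (8 ^ m * (q - p) - 2) ≤ (N : ℝ) := by
      have : (N : ℝ) = ((j1 - j0 : ℤ) : ℝ) := by exact_mod_cast hNZ
      rw [this]
      push_cast
      linarith
    let u : ℕ → ℝ := fun i => ((j0 + i : ℤ) : ℝ) / 8 ^ m
    have hmono : Monotone u := by
      intro i k hik
      simp only [u]
      gcongr
    have hmem : ∀ i ≤ N, u i ∈ Icc p q := by
      intro i hi
      simp only [u]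
      constructor
      · rw [le_div_iff₀ h8]
        push_cast
        have : (0 : ℝ) ≤ i := by positivity
        linarith
      · rw [div_le_iff₀ h8]
        have : (j0 + i : ℤ) ≤ j1 := by
          have : (i : ℤ) ≤ (N : ℤ) := by exact_mod_cast hi
          omega
        have h2 : ((j0 + i : ℤ) : ℝ) ≤ (j1 : ℝ) := by exact_mod_cast this
        linarith
    have hsum := eVariationOn.sum_le_of_monotoneOn_Iic (f := W) (s := Icc p q) (n := N)
      (hmono.monotoneOn _) hmem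
    have hterm : ∀ i ∈ Finset.range N,
        ENNReal.ofReal ((2 / 3 : ℝ) * (1 / 2) ^ m) ≤ edist (W (u (i + 1))) (W (u i)) := by
      intro i _
      rw [edist_dist, Real.dist_eq]
      apply ENNReal.ofReal_le_ofReal
      have h := W_step m (j0 + i)
      have e1 : u (i + 1) = ((j0 + i + 1 : ℤ) : ℝ) / 8 ^ m := by
        simp only [u]; push_cast; ring
      rw [e1]
      exact h
    have hle : (N : ℝ≥0∞) * ENNReal.ofReal ((2 / 3 : ℝ) * (1 / 2) ^ m) ≤
        eVariationOn W (Icc p q) := by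
      refine le_trans ?_ hsum
      rw [← nsmul_eq_mul]
      have := Finset.card_nsmul_le_sum (Finset.range N) _ _ hterm
      rwa [Finset.card_range] at this
    have hle2 := ENNReal.toReal_mono hne hle
    rw [ENNReal.toReal_mul, ENNReal.toReal_natCast, ENNReal.toReal_ofReal (by positivity)] at hle2
    calc _ ≤ (N : ℝ) * ((2 / 3 : ℝ) * (1 / 2) ^ m) := by gcongr
      _ ≤ V := hle2
  have hd : 0 < q - p := sub_pos.2 hpq
  -- the lower bound grows like `4 ^ m`
  have key2 : ∀ m : ℕ, (4 : ℝ) ^ m * ((2 / 3) * (q - p)) ≤ V + 4 / 3 := by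
    intro m
    have h := key m
    have e : (8 : ℝ) ^ m * (1 / 2) ^ m = 4 ^ m := by rw [← mul_pow]; norm_num
    have h2 : (1 / 2 : ℝ) ^ m ≤ 1 := pow_le_one₀ (by norm_num) (by norm_num)
    have e2 : (8 ^ m * (q - p) - 2) * ((2 / 3 : ℝ) * (1 / 2) ^ m)
        = (4 : ℝ) ^ m * ((2 / 3) * (q - p)) - (4 / 3) * (1 / 2) ^ m := by
      rw [← e]; ring
    rw [e2] at h
    linarith
  obtain ⟨m, hm⟩ := pow_unbounded_of_one_lt ((V + 4 / 3) / ((2 / 3) * (q - p)))
    (by norm_num : (1 : ℝ) < 4)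
  rw [div_lt_iff₀ (by positivity)] at hm
  linarith [key2 m]

/-- first hitting times: a continuous curve runs through the whole interval between its end
values, so composing with it does not decrease the variation -/
lemma hit {y : ℝ → ℝ} {s t : ℝ} (hst : s ≤ t) (hy : ContinuousOn y (Icc s t))
    (h : y s ≤ y t) (f : ℝ → ℝ) :
    eVariationOn f (Icc (y s) (y t)) ≤ eVariationOn (f ∘ y) (Icc s t) := by
  have hex : ∀ x ∈ Icc (y s) (y t), ∃ τ ∈ Icc s t, y τ = x ∧ ∀ σ ∈ Icc s t, y σ = x → τ ≤ σ := by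
    intro x hx
    have hne : (Icc s t ∩ y ⁻¹' {x}).Nonempty := by
      obtain ⟨τ, hτ, hτx⟩ := intermediate_value_Icc hst hy hx
      exact ⟨τ, hτ, hτx⟩
    have hcl : IsClosed (Icc s t ∩ y ⁻¹' {x}) :=
      hy.preimage_isClosed_of_isClosed isClosed_Icc isClosed_singleton
    have hcomp : IsCompact (Icc s t ∩ y ⁻¹' {x}) :=
      isCompact_Icc.of_isClosed_subset hcl inter_subset_left
    obtain ⟨τ, hτ, hmin⟩ := hcomp.exists_isLeast hne
    exact ⟨τ, hτ.1, hτ.2, fun σ hσ hσx => hmin ⟨hσ, hσx⟩⟩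
  choose! τ hτ hyτ hmin using hex
  have hmono : MonotoneOn τ (Icc (y s) (y t)) := by
    intro x hx x' hx' hxx'
    -- the curve reaches `x` before `τ x'`
    have hsub : x ∈ Icc (y s) (y (τ x')) := ⟨hx.1, by rw [hyτ x' hx']; exact hxx'⟩
    obtain ⟨σ, hσ, hσx⟩ := intermediate_value_Icc (hτ x' hx').1
      (hy.mono (Icc_subset_Icc_right (hτ x' hx').2)) hsub
    exact le_trans (hmin x hx σ ⟨hσ.1, hσ.2.trans (hτ x' hx').2⟩ hσx) hσ.2
  have h1 : eVariationOn ((f ∘ y) ∘ τ) (Icc (y s) (y t)) ≤ eVariationOn (f ∘ y) (Icc s t) :=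
    eVariationOn.comp_le_of_monotoneOn (f ∘ y) τ hmono (fun x hx => hτ x hx)
  refine le_trans (le_of_eq ?_) h1
  apply eVariationOn.eq_of_eqOn
  intro x hx
  simp only [Function.comp_apply, hyτ x hx]

/-- composing `W` with a nonconstant continuous function gives infinite variation -/
lemma W_comp_var {y : ℝ → ℝ} {a b : ℝ} (hy : ContinuousOn y (Icc a b))
    {s t : ℝ} (hs : s ∈ Icc a b) (ht : t ∈ Icc a b) (hne : y s ≠ y t) :
    eVariationOn (W ∘ y) (Icc a b) = ⊤ := by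
  wlog hst : s ≤ t generalizing s t
  · exact this ht hs hne.symm (le_of_not_ge hst)
  rw [eq_top_iff]
  have hsub : Icc s t ⊆ Icc a b := Icc_subset_Icc hs.1 ht.2
  refine le_trans ?_ (eVariationOn.mono _ hsub)
  rcases lt_or_gt_of_ne hne with h | h
  · rw [← W_var h]
    exact hit hst (hy.mono hsub) h.le W
  · -- reflect
    have h' : (-y) s ≤ (-y) t := by simpa using h.le
    have h1 := hit (y := -y) hst ((hy.mono hsub).neg) h' (fun x => W (-x))
    have e : ((fun x => W (-x)) ∘ (-y)) = W ∘ y := by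
      ext x; simp
    rw [e] at h1
    refine le_trans ?_ h1
    rw [← W_var h]
    have h2 := eVariationOn.comp_le_of_antitoneOn (fun x => W (-x)) (s := Icc ((-y) s) ((-y) t))
      (fun x : ℝ => -x) (t := Icc (y t) (y s)) (fun x _ x' _ hxx' => neg_le_neg hxx')
      (fun x hx => by
        simp only [Pi.neg_apply]
        exact ⟨neg_le_neg hx.2, neg_le_neg hx.1⟩)
    refine le_trans (le_of_eq ?_) h2
    congr 1
    ext x
    simp

end Pool.Agent.Y523.Sponge
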