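import Mathlib
import Pool.Agent.Y523.Wild

open Set Filter Topology MeasureTheory
open scoped ENNReal NNReal

namespace Pool.Agent.Y523.Sponge

lemma var_sub_le (f g : ℝ → ℝ) (s : Set ℝ) :
    eVariationOn (fun t => f t - g t) s ≤ eVariationOn f s + eVariationOn g s := by
  refine iSup_le ?_
  rintro ⟨n, u, hu, us⟩
  calc ∑ i ∈ Finset.range n, edist (f (u (i + 1)) - g (u (i + 1))) (f (u i) - g (u i))
      ≤ ∑ i ∈ Finset.range n, (edist (f (u (i + 1))) (f (u i)) + edist (g (u (i + 1))) (g (u i))) := by
        apply Finset.sum_le_sum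
        intro i _
        have := edist_add_add_le (f (u (i + 1))) (-g (u (i + 1))) (f (u i)) (-g (u i))
        simpa [sub_eq_add_neg, edist_neg_neg] using this
    _ = (∑ i ∈ Finset.range n, edist (f (u (i + 1))) (f (u i))) +
        ∑ i ∈ Finset.range n, edist (g (u (i + 1))) (g (u i)) := Finset.sum_add_distrib
    _ ≤ _ := add_le_add (eVariationOn.sum_le hu us) (eVariationOn.sum_le hu us)

lemma bv_sub {f g : ℝ → ℝ} {s : Set ℝ} (hf : BoundedVariationOn f s) (hg : BoundedVariationOn g s) :
    BoundedVariationOn (fun t => f t - g t) s := by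
  have h1 : eVariationOn f s ≠ ⊤ := hf
  have h2 : eVariationOn g s ≠ ⊤ := hg
  exact ne_top_of_le_ne_top (ENNReal.add_ne_top.2 ⟨h1, h2⟩) (var_sub_le f g s)

variable {m : ℕ}

/-- first shear: add `W` of the next coordinate to every coordinate but the last -/
noncomputable def FF (y : Fin (m + 2) → ℝ) : Fin (m + 2) → ℝ :=
  fun i => y i + if h : i.val + 1 < m + 2 then W (y ⟨i.val + 1, h⟩) else 0

/-- second shear: add `W` of coordinate `0` to the last coordinate -/
noncomputable def GG (z : Fin (m + 2) → ℝ) : Fin (m + 2) → ℝ :=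
  fun i => z i + if i.val = m + 1 then W (z 0) else 0

lemma FF_cont : Continuous (FF (m := m)) := by
  apply continuous_pi
  intro i
  unfold FF
  by_cases h : i.val + 1 < m + 2
  · simp only [h, dite_true]
    exact (continuous_apply i).add (W_cont.comp (continuous_apply _))
  · simp only [h, dite_false]
    exact (continuous_apply i).add continuous_const

lemma GG_cont : Continuous (GG (m := m)) := by
  apply continuous_pi
  intro i
  unfold GG
  by_cases h : i.val = m + 1
  · simp only [h, if_true]
    exact (continuous_apply i).add (W_cont.comp (continuous_apply _))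
  · simp only [h, if_false]
    exact (continuous_apply i).add continuous_const

lemma FF_inj : Function.Injective (FF (m := m)) := by
  intro x y hxy
  have key : ∀ k : ℕ, ∀ i : Fin (m + 2), i.val + k = m + 1 → x i = y i := by
    intro k
    induction k with
    | zero =>
      intro i hi
      have h := congrFun hxy i
      simp only [FF] at h
      have hn : ¬ (i.val + 1 < m + 2) := by omega
      simpa only [hn, dite_false, add_zero] using h
    | succ k ih =>
      intro i hi
      have h := congrFun hxy i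
      simp only [FF] at h
      have hn : i.val + 1 < m + 2 := by omega
      have h2 := ih ⟨i.val + 1, hn⟩ (by simp only; omega)
      simp only [hn, dite_true, h2] at h
      linarith
  funext i
  exact key (m + 1 - i.val) i (by omega)

lemma GG_inj : Function.Injective (GG (m := m)) := by
  intro x y hxy
  have h0 : x 0 = y 0 := by
    have h := congrFun hxy 0
    have hn : ¬ ((0 : Fin (m + 2)).val = m + 1) := by simp
    simpa only [GG, hn, if_false, add_zero] using h
  funext i
  have h := congrFun hxy i
  simp only [GG, h0] at h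
  linarith

lemma FF_close (y : Fin (m + 2) → ℝ) (i : Fin (m + 2)) : |FF y i - y i| ≤ 2 := by
  simp only [FF, add_sub_cancel_left]
  split_ifs with h
  · rw [abs_of_nonneg (W_nonneg _)]; exact W_le _
  · simp

lemma GG_close (y : Fin (m + 2) → ℝ) (i : Fin (m + 2)) : |GG y i - y i| ≤ 2 := by
  simp only [GG, add_sub_cancel_left]
  split_ifs with h
  · rw [abs_of_nonneg (W_nonneg _)]; exact W_le _
  · simp

/-- the wild homeomorphism -/
noncomputable def HH (y : Fin (m + 2) → ℝ) : Fin (m + 2) → ℝ := GG (FF y)

lemma HH_close (y : Fin (m + 2) → ℝ) (i : Fin (m + 2)) : |HH y i - y i| ≤ 4 := by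
  have h1 := GG_close (FF y) i
  have h2 := FF_close y i
  have : HH y i - y i = (GG (FF y) i - FF y i) + (FF y i - y i) := by simp [HH]
  rw [this]
  exact le_trans (abs_add_le _ _) (by linarith)

lemma HH_embedding : IsClosedEmbedding (HH (m := m)) := by
  have hc : Continuous (HH (m := m)) := GG_cont.comp FF_cont
  apply IsClosedEmbedding.of_continuous_injective_isClosedMap hc
    (GG_inj.comp FF_inj)
  apply IsProperMap.isClosedMap
  rw [isProperMap_iff_tendsto_cocompact]
  refine ⟨hc, ?_⟩
  rw [← Metric.cobounded_eq_cocompact, ← comap_norm_atTop, tendsto_comap_iff]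
  have h : ∀ y : Fin (m + 2) → ℝ, ‖y‖ - 4 ≤ ‖HH y‖ := by
    intro y
    have h1 : ‖HH y - y‖ ≤ 4 := by
      rw [pi_norm_le_iff_of_nonneg (by norm_num)]
      intro i
      exact HH_close y i
    have h2 : ‖y‖ ≤ ‖HH y‖ + ‖HH y - y‖ := by
      have := norm_sub_le (HH y) (HH y - y)
      simpa using this
    linarith
  apply tendsto_atTop_mono h
  exact (tendsto_atTop_add_const_right _ (-4) tendsto_id).comp tendsto_comap

/-- coordinatewise `arctan` -/
noncomputable def arc (x : Fin (m + 2) → ℝ) : Fin (m + 2) → ℝ := Pi.map (fun _ => Real.arctan) x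

lemma arc_embedding : IsEmbedding (arc (m := m)) := by
  apply IsEmbedding.piMap
  intro i
  apply Real.arctan_strictMono.isEmbedding_of_ordConnected
  rw [Real.range_arctan]
  exact ordConnected_Ioo

/-- the wild embedding of the whole space in the unit ball -/
noncomputable def wild (x : EuclideanSpace ℝ (Fin (m + 2))) : EuclideanSpace ℝ (Fin (m + 2)) :=
  (1 / (6 * (m + 2) : ℝ)) • WithLp.toLp 2 (HH (arc x.ofLp))

lemma wild_embedding : IsEmbedding (wild (m := m)) := by
  have hc : (1 / (6 * (m + 2) : ℝ)) ≠ 0 := by positivity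
  have h1 := (Homeomorph.smulOfNeZero (α := EuclideanSpace ℝ (Fin (m + 2)))
    (1 / (6 * (m + 2) : ℝ)) hc).isEmbedding
  have h2 := (PiLp.homeomorph 2 (fun _ : Fin (m + 2) => ℝ)).isEmbedding
  have h3 := (PiLp.homeomorph 2 (fun _ : Fin (m + 2) => ℝ)).symm.isEmbedding
  exact h1.comp (h3.comp ((HH_embedding.isEmbedding.comp arc_embedding).comp h2))

lemma abs_arctan_le (x : ℝ) : |Real.arctan x| ≤ 2 := by
  have h1 := Real.arctan_lt_pi_div_two x
  have h2 := Real.neg_pi_div_two_lt_arctan x
  have h3 := Real.pi_le_four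
  rw [abs_le]
  constructor <;> linarith

lemma wild_norm (x : EuclideanSpace ℝ (Fin (m + 2))) : ‖wild x‖ ≤ 1 := by
  unfold wild
  rw [norm_smul, Real.norm_of_nonneg (by positivity)]
  have h : ‖(WithLp.toLp 2 (HH (arc x.ofLp)) : EuclideanSpace ℝ (Fin (m + 2)))‖ ≤ 6 * (m + 2) := by
    rw [EuclideanSpace.norm_eq]
    apply Real.sqrt_le_iff.2
    refine ⟨by positivity, ?_⟩
    have hb : ∀ i : Fin (m + 2), ‖HH (arc x.ofLp) i‖ ^ 2 ≤ 36 := by
      intro i
      have h1 := HH_close (arc x.ofLp) i
      have h2 : |arc x.ofLp i| ≤ 2 := abs_arctan_le _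
      have h3 : ‖HH (arc x.ofLp) i‖ ≤ 6 := by
        rw [Real.norm_eq_abs]
        have : HH (arc x.ofLp) i = (HH (arc x.ofLp) i - arc x.ofLp i) + arc x.ofLp i := by ring
        rw [this]
        exact le_trans (abs_add_le _ _) (by linarith)
      have h4 := norm_nonneg (HH (arc x.ofLp) i)
      nlinarith
    calc ∑ i, ‖HH (arc x.ofLp) i‖ ^ 2 ≤ ∑ _i : Fin (m + 2), (36 : ℝ) :=
          Finset.sum_le_sum (fun i _ => hb i)
      _ = 36 * (m + 2) := by simp; ring
      _ ≤ (6 * (m + 2)) ^ 2 := by
        have : (0 : ℝ) ≤ m := by positivity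
        nlinarith
  calc (1 / (6 * (m + 2) : ℝ)) * _ ≤ (1 / (6 * (m + 2) : ℝ)) * (6 * (m + 2)) := by gcongr
    _ = 1 := by field_simp

lemma arctan_lip : LipschitzWith 1 Real.arctan := by
  apply lipschitzWith_of_nnnorm_deriv_le Real.differentiable_arctan
  intro x
  rw [Real.deriv_arctan, ← NNReal.coe_le_coe, coe_nnnorm, Real.norm_of_nonneg (by positivity)]
  rw [NNReal.coe_one, div_le_one (by positivity)]
  nlinarith [sq_nonneg x]

lemma coord_lip (i : Fin (m + 2)) :
    LipschitzWith 1 (fun x : EuclideanSpace ℝ (Fin (m + 2)) => x.ofLp i) := by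
  apply LipschitzWith.of_dist_le_mul
  intro x y
  rw [NNReal.coe_one, one_mul, dist_eq_norm, dist_eq_norm]
  exact PiLp.norm_apply_le (x - y) i

/-- a nonconstant rectifiable curve has wild image of infinite length -/
lemma wild_var {γ : ℝ → EuclideanSpace ℝ (Fin (m + 2))} {a b : ℝ}
    (hγ : ContinuousOn γ (Icc a b)) (hbv : BoundedVariationOn γ (Icc a b))
    {s t : ℝ} (hs : s ∈ Icc a b) (ht : t ∈ Icc a b) (hne : γ s ≠ γ t) :
    eVariationOn (wild ∘ γ) (Icc a b) = ⊤ := by
  by_contra hfin
  have hfin' : BoundedVariationOn (wild ∘ γ) (Icc a b) := hfin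
  apply hne
  -- coordinates of the squashed curve
  set y : Fin (m + 2) → ℝ → ℝ := fun i τ => Real.arctan ((γ τ).ofLp i) with hy
  have hycont : ∀ i, ContinuousOn (y i) (Icc a b) := fun i =>
    Real.continuous_arctan.comp_continuousOn ((coord_lip i).continuous.comp_continuousOn hγ)
  have hybv : ∀ i, BoundedVariationOn (y i) (Icc a b) := fun i =>
    arctan_lip.comp_boundedVariationOn ((coord_lip i).comp_boundedVariationOn hbv)
  -- coordinates of the image
  have himg : ∀ i, BoundedVariationOn (fun τ => HH (arc (γ τ).ofLp) i) (Icc a b) := by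
    intro i
    have h1 := (coord_lip i).comp_boundedVariationOn hfin'
    have h2 := (lipschitzWith_smul (6 * (m + 2) : ℝ) (β := ℝ)).comp_boundedVariationOn h1
    have e : (fun x : ℝ => (6 * (m + 2) : ℝ) • x) ∘
        ((fun x : EuclideanSpace ℝ (Fin (m + 2)) => x.ofLp i) ∘ (wild ∘ γ)) =
        (fun τ => HH (arc (γ τ).ofLp) i) := by
      funext τ
      simp only [Function.comp_apply, wild, PiLp.smul_apply, smul_eq_mul]
      field_simp
    rwa [e] at h2
  -- step 1: all coordinates but the first one are constant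
  have step1 : ∀ j : Fin (m + 2), 0 < j.val → ∀ s' ∈ Icc a b, ∀ t' ∈ Icc a b, y j s' = y j t' := by
    intro j hj s' hs' t' ht'
    by_contra hcon
    have hinf := W_comp_var (hycont j) hs' ht' hcon
    have hlt : j.val - 1 < m + 2 := by omega
    have hbv2 := bv_sub (himg ⟨j.val - 1, hlt⟩) (hybv ⟨j.val - 1, hlt⟩)
    apply hbv2
    rw [← hinf]
    congr 1
    funext τ
    have h1 : ¬ (j.val - 1 = m + 1) := by omega
    have h2 : j.val - 1 + 1 < m + 2 := by omega
    have h3 : (⟨j.val - 1 + 1, h2⟩ : Fin (m + 2)) = j := by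
      apply Fin.ext
      simp only
      omega
    simp only [HH, GG, h1, if_false, FF, h2, dite_true, h3, add_zero, Function.comp_apply]
    simp only [arc, Pi.map_apply, hy]
    ring
  -- step 2: the first coordinate is constant
  have step2 : y 0 s = y 0 t := by
    by_contra hcon
    set z : ℝ → ℝ := fun τ => FF (arc (γ τ).ofLp) 0 with hz
    have hzval : ∀ τ, z τ = y 0 τ + W (y ⟨1, by omega⟩ τ) := by
      intro τ
      have h1 : (0 : Fin (m + 2)).val + 1 < m + 2 := by simp
      simp only [hz, FF, h1, dite_true]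
      simp only [arc, Pi.map_apply, hy]
      congr 1
    have hzcont : ContinuousOn z (Icc a b) := by
      have : z = fun τ => y 0 τ + W (y ⟨1, by omega⟩ τ) := funext hzval
      rw [this]
      exact (hycont 0).add (W_cont.comp_continuousOn (hycont _))
    have hzne : z s ≠ z t := by
      rw [hzval, hzval, step1 ⟨1, by omega⟩ (by simp) s hs t ht]
      intro h
      exact hcon (by linarith)
    have hinf := W_comp_var hzcont hs ht hzne
    have hlt : m + 1 < m + 2 := by omega
    have hbv2 := bv_sub (himg ⟨m + 1, hlt⟩) (hybv ⟨m + 1, hlt⟩)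
    apply hbv2
    rw [← hinf]
    congr 1
    funext τ
    have h2 : ¬ (m + 1 + 1 < m + 2) := by omega
    simp only [HH, GG, if_true, Function.comp_apply]
    rw [show FF (arc (γ τ).ofLp) ⟨m + 1, hlt⟩ = y ⟨m + 1, hlt⟩ τ by
      simp only [FF, h2, dite_false, add_zero, arc, Pi.map_apply, hy]]
    simp only [hz]
    ring
  -- conclude
  ext i
  have hi : y i s = y i t := by
    rcases Nat.eq_zero_or_pos i.val with h0 | h0
    · have : i = 0 := Fin.ext h0
      rw [this]
      exact step2
    · exact step1 i h0 s hs t ht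
  exact Real.arctan_injective hi

/-- the wild embedding does not decrease the length of rectifiable curves -/
lemma wild_length {γ : ℝ → EuclideanSpace ℝ (Fin (m + 2))} {a b : ℝ}
    (hγ : ContinuousOn γ (Icc a b)) (hbv : BoundedVariationOn γ (Icc a b)) :
    eVariationOn γ (Icc a b) ≤ eVariationOn (wild ∘ γ) (Icc a b) := by
  by_cases h : ∃ s ∈ Icc a b, ∃ t ∈ Icc a b, γ s ≠ γ t
  · obtain ⟨s, hs, t, ht, hne⟩ := h
    rw [wild_var hγ hbv hs ht hne]
    exact le_top
  · push Not at h
    have : eVariationOn γ (Icc a b) = 0 := by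
      rw [eVariationOn.eq_zero_iff]
      intro x hx y hy
      rw [h x hx y hy, edist_self]
    rw [this]
    exact bot_le

end Pool.Agent.Y523.Sponge
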